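import Mathlib

/-!
# Project fy (MP_f6e9a2_nt): Farey sets and arbitrary sets, specification

Main theorem (`RES`): for `|A| = |B| = p^(1/4+ε)`, `A` a dense part of (a Moebius image of) the Farey
set `{x/y : 1 ≤ x, y ≤ Q}` and `B` arbitrary, the double sum `∑_{a ∈ A} |∑_{b ∈ B} β_b χ(a+b)|` has a power
saving.

HOW TO WORK: row `fy:XXX` = prove `theorem XXX : HYP1_stmt → ... → XXX_stmt` in the file
`Pool/Agent/<your seat>/FY/XXX.lean`, `namespace Pool.Agent.helper68.FY`, importing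
`Pool.Agent.helper68.FY.Spec`; auxiliary lemmas are prefixed `XXX_`. The hypotheses are listed in the docstring.

All vectors are in `ℤ⁴` (`V4`); `g : V4` is also the matrix `(g 0, g 1; g 2, g 3)`, which acts on `b` by
`(g 0 * b + g 1) / (g 2 * b + g 3)`. `am g h` is `adj g * h`. `pl x y i j` are the 2x2 minors
(Pluecker coordinates), `m3` the 3x3 minors, `d4` the determinant.
-/

set_option autoImplicit false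

namespace Pool.Agent.helper68.FY

open Finset

/-- integer vectors with 4 coordinates; also 2x2 matrices `(g 0, g 1; g 2, g 3)` -/
abbrev V4 := Fin 4 → ℤ

/-- binary quadratic forms `φ 0 * X² + φ 1 * X * Y + φ 2 * Y²` -/
abbrev V3 := Fin 3 → ℤ

/-- the determinant of a 2x2 matrix -/
def dt (g : V4) : ℤ := g 0 * g 3 - g 1 * g 2

/-- `adj g * h` -/
def am (g h : V4) : V4 :=
  ![g 3 * h 0 - g 1 * h 2, g 3 * h 1 - g 1 * h 3, g 0 * h 2 - g 2 * h 0, g 0 * h 3 - g 2 * h 1]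

/-- the sup norm -/
def nm (g : V4) : ℕ := Finset.univ.sup fun i => (g i).natAbs

/-- the 2x2 minors of two vectors -/
def pl (x y : V4) (i j : Fin 4) : ℤ := x i * y j - x j * y i

/-- the 3x3 minors of three vectors -/
def m3 (x y z : V4) (i j k : Fin 4) : ℤ :=
  x i * (y j * z k - y k * z j) - x j * (y i * z k - y k * z i) + x k * (y i * z j - y j * z i)

/-- the determinant of four vectors (Laplace expansion) -/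
def d4 (x y z w : V4) : ℤ :=
  pl x y 0 1 * pl z w 2 3 - pl x y 0 2 * pl z w 1 3 + pl x y 0 3 * pl z w 1 2 +
    pl x y 1 2 * pl z w 0 3 - pl x y 1 3 * pl z w 0 2 + pl x y 2 3 * pl z w 0 1

/-- primitive vectors -/
def prim (g : V4) : Prop := ∀ t : ℤ, (∀ i, t ∣ g i) → t.natAbs = 1

/-- the vectors of sup norm at most `G` -/
noncomputable def box (G : ℕ) : Finset V4 := Fintype.piFinset fun _ => Finset.Icc (-(G : ℤ)) G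

open Classical in
/-- the primitive nonsingular integer matrices of norm at most `G` -/
noncomputable def PB (G : ℕ) : Finset V4 := (box G).filter fun g => dt g ≠ 0 ∧ prim g

/-- the nonsingular integer matrices of norm at most `Q`, with second row of norm at most `L` -/
noncomputable def NB (Q L : ℕ) : Finset V4 := (box Q).filter fun g => dt g ≠ 0 ∧ |g 2| ≤ L ∧ |g 3| ≤ L

open Classical in
/-- the number of pairs of elements of `S` which are related by `r` -/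
noncomputable def pc {X : Type} (S : Finset X) (r : X → X → Prop) : ℕ :=
  ((S ×ˢ S).filter fun w => r w.1 w.2).card

/-- the number of `(g, x, y)`, `g ∈ PB G`, `x, y ∈ S`, with `r g x y` -/
noncomputable def cnt {X : Type} (S : Finset X) (r : V4 → X → X → Prop) (G : ℕ) : ℕ :=
  ∑ g ∈ PB G, pc S (r g)

/-- the form `φ ∘ g` -/
def cp (φ : V3) (g : V4) : V3 :=
  ![φ 0 * g 0 ^ 2 + φ 1 * (g 0 * g 2) + φ 2 * g 2 ^ 2,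
    2 * φ 0 * (g 0 * g 1) + φ 1 * (g 0 * g 3 + g 1 * g 2) + 2 * φ 2 * (g 2 * g 3),
    φ 0 * g 1 ^ 2 + φ 1 * (g 1 * g 3) + φ 2 * g 3 ^ 2]

/-- two forms are proportional -/
def par (φ ψ : V3) : Prop := ∀ i j, φ i * ψ j = φ j * ψ i

/-- the discriminant of a form -/
def ds (φ : V3) : ℤ := φ 1 ^ 2 - 4 * φ 0 * φ 2

/-- `g b = b'` mod `p` -/
def rl (p : ℕ) (g : V4) (b b' : ZMod p) : Prop :=
  (g 0 : ZMod p) * b + (g 1 : ZMod p) = b' * ((g 2 : ZMod p) * b + (g 3 : ZMod p))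

/-- `g x = y` mod `p` for pairs -/
def rp (p : ℕ) (g : V4) (x y : ZMod p × ZMod p) : Prop := rl p g x.1 y.1 ∧ rl p g x.2 y.2

/-- the form vanishes at `b` mod `p` -/
def va (p : ℕ) (ψ : V3) (b : ZMod p) : Prop :=
  (ψ 0 : ZMod p) * b ^ 2 + (ψ 1 : ZMod p) * b + (ψ 2 : ZMod p) = 0

/-- nonzero forms with coefficients less than `√p / 2` -/
def smf (p : ℕ) (ψ : V3) : Prop := ψ ≠ 0 ∧ ∀ i, 4 * ψ i ^ 2 < p

open Classical in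
/-- a small form vanishing at both elements of the pair `x`, or `0` if there is none -/
noncomputable def Phi (p : ℕ) (x : ZMod p × ZMod p) : V3 :=
  if h : ∃ ψ : V3, smf p ψ ∧ va p ψ x.1 ∧ va p ψ x.2 then Classical.choose h else 0

/-- the integral relation: `Phi y ∘ g` is proportional to `Phi x` -/
def ri (p : ℕ) (g : V4) (x y : ZMod p × ZMod p) : Prop := par (cp (Phi p y) g) (Phi p x)

/-- the lattice of all `g` with `g x = y` mod `p` -/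
def Lam (p : ℕ) (x y : ZMod p × ZMod p) : AddSubgroup V4 where
  carrier := {g | rp p g x y}
  add_mem' := by
    rintro g h ⟨h1, h2⟩ ⟨h3, h4⟩
    refine ⟨?_, ?_⟩
    · unfold rl at *; simp only [Pi.add_apply]; push_cast; linear_combination h1 + h3
    · unfold rl at *; simp only [Pi.add_apply]; push_cast; linear_combination h2 + h4
  zero_mem' := by
    refine ⟨?_, ?_⟩ <;> · unfold rl; simp
  neg_mem' := by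
    rintro g ⟨h1, h2⟩
    refine ⟨?_, ?_⟩
    · unfold rl at *; simp only [Pi.neg_apply]; push_cast; linear_combination -h1
    · unfold rl at *; simp only [Pi.neg_apply]; push_cast; linear_combination -h2

/-! ## Part 1: lattices in the plane, factorizations -/

/-- PLN (no hypotheses). PROOF. Let `e₁` be a nonzero element of `Λ` of minimal norm `λ` (`λ ≤ R` as `x ∈ F`
is nonzero), `l` with `|e₁ l| = λ`. One of `x, y` (say `x`) has `pl e₁ x ≠ 0` (otherwise `x, y` are both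
proportional to `e₁` and `pl x y = 0`), so `μ ≤ |pl e₁ x i j| ≤ 2 λ R`. The map
`F → ℤ × ℤ, δ ↦ (⌊pl e₁ δ i j / μ⌋, ⌊δ l / λ⌋)` is injective: if `δ, δ'` have the same image, then `z = δ - δ' ∈ Λ`
has `|pl e₁ z i j| < μ`, so all `pl e₁ z = 0`, so `z` is a rational multiple of `e₁`, and `|z l| < λ = |e₁ l|`
gives `nm z < λ` so `z = 0`. The first coordinate takes at most `2⌊2λR/μ⌋ + 2 ≤ 8λR/μ` values, the second at most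
`2⌊R/λ⌋ + 2 ≤ 4R/λ`. -/
def PLN_stmt : Prop := ∀ (Λ : AddSubgroup V4) (i j : Fin 4) (μ R : ℕ), 1 ≤ μ →
  (∀ x ∈ Λ, ∀ y ∈ Λ, (∀ k l, pl x y k l = 0) ∨ (μ : ℤ) ≤ |pl x y i j|) →
  ∀ F : Finset V4, (∀ x ∈ F, x ∈ Λ ∧ nm x ≤ R) → (∃ x ∈ F, ∃ y ∈ F, pl x y i j ≠ 0) →
    F.card * μ ≤ 32 * R ^ 2

/-- NPA (hypothesis: PLN). Pairs of vectors `(x, y)`, `nm x ≤ nm y`, with given Pluecker coordinates `c * P`, `P` primitive.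
PROOF. If `P i j = 0` or there is no such pair, clear. Let `K = |P i j| ≥ 1`.
Fix one pair `(x₀, y₀)`; `Λ = {z : m3 x₀ y₀ z = 0}` (all 3x3 minors), a subgroup; all `x, y` of all pairs are in
`Λ` (since `pl x y = pl x₀ y₀`), and for `z, w ∈ Λ`: `pl z w = n * P` with `n ∈ ℤ` (proportional to `pl x₀ y₀ = c P`,
and `P` is primitive), so `pl z w = 0` or `|pl z w i j| ≥ K`. Write `y = k e` with `e` primitive, `k ≥ 1` (`k` is the gcd of the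
coordinates of `y`). Then `k * pl x e = c P`, `pl x e = n P`, so `k ∣ c`, and `K k ≤ K |c| = |pl x y i j| ≤ 2 Q²`.
For given `k, e`: two solutions `x, x'` have `pl (x - x') e = 0`, so `x - x' = m e` with `m ∈ ℤ`, `|m| ≤ 2k` as
`nm x, nm x' ≤ nm y = k nm e`: at most `2k + 1 ≤ 3k` solutions `x`. The possible `e` for given `k` are primitive vectors of `Λ` of norm
`≤ R = Q / k` (floor): if two of them have `pl ≠ 0`, there are at most `32 R² / K` by PLN, otherwise at most `2`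
(`± e`). In the first case the number of pairs for this `k` is at most `3k * 32 (Q/k)² / K ≤ 96 Q²/K`, in the second at most
`6 k ≤ 12 Q² / K`. Sum over the `≤ D` divisors `k` of `c`: at most `96 D Q² / K`. -/
def NPA_stmt : Prop := ∀ (Q D : ℕ) (P : Fin 4 → Fin 4 → ℤ) (c : ℤ) (i j : Fin 4), 1 ≤ Q → c ≠ 0 →
  (∀ t : ℤ, (∀ k l, t ∣ P k l) → t.natAbs = 1) → c.natAbs.divisors.card ≤ D →
  ∀ F : Finset (V4 × V4), (∀ w ∈ F, nm w.1 ≤ nm w.2 ∧ nm w.2 ≤ Q ∧ ∀ k l, pl w.1 w.2 k l = c * P k l) →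
    F.card * (P i j).natAbs ≤ 96 * D * Q ^ 2

/-- NP (hypothesis: NPA). PROOF. Split `F` according to `nm w.1 ≤ nm w.2` or not; in the second case swap the two vectors (`c` becomes `-c`). -/
def NP_stmt : Prop := ∀ (Q D : ℕ) (P : Fin 4 → Fin 4 → ℤ) (c : ℤ) (i j : Fin 4), 1 ≤ Q → c ≠ 0 →
  (∀ t : ℤ, (∀ k l, t ∣ P k l) → t.natAbs = 1) → c.natAbs.divisors.card ≤ D →
  ∀ F : Finset (V4 × V4), (∀ w ∈ F, nm w.1 ≤ Q ∧ nm w.2 ≤ Q ∧ ∀ k l, pl w.1 w.2 k l = c * P k l) →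
    F.card * (P i j).natAbs ≤ 192 * D * Q ^ 2

/-- FC (hypothesis: NP). Number of factorizations `adj h * g = t γ`. PROOF. For `w = (g, h)` put `x = (g 0, g 1, h 0, h 1)` and
`y = (g 2, g 3, h 2, h 3)`; then `pl x y 0 1 = dt g`, `pl x y 2 3 = dt h`, and with `A = am h g`: `pl x y 0 3 = A 0`,
`pl x y 1 3 = A 1`, `pl x y 0 2 = -A 2`, `pl x y 1 2 = -A 3`, and `dt A = dt g * dt h`. All entries of `A` are at most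
`2QL`, `t ≠ 0`, `|t| nm γ ≤ 2QL`: at most `4QL / nm γ` values of `t`. For given `t`: `dt g * dt h = t² dt γ`, of absolute value
`≤ (2QL)² ≤ 4Q⁴`: at most `2D` pairs `(dt g, dt h)`. For given `t, dt g, dt h` all `pl x y k l = P' k l` are given;
let `c` be their gcd, `P = P'/c`. `c` divides all entries of `t γ`, so `c ∣ t` (`γ` is primitive), and there are `i, j` with
`|P' i j| = |t| nm γ`, so `|P i j| ≥ nm γ`. By NP at most `192 D Q² / nm γ` pairs. Total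
`≤ 4QL/nm γ * 2D * 192 D Q²/nm γ`. -/
def FC_stmt : Prop := ∀ (Q L D : ℕ) (γ : V4), 1 ≤ L → L ≤ Q → prim γ → dt γ ≠ 0 →
  (∀ n, 1 ≤ n → n ≤ 4 * Q ^ 4 → n.divisors.card ≤ D) →
  ∀ F : Finset (V4 × V4), (∀ w ∈ F, w.1 ∈ NB Q L ∧ w.2 ∈ NB Q L ∧ ∃ t : ℤ, am w.2 w.1 = t • γ) →
    F.card * nm γ ^ 2 ≤ 1536 * D ^ 2 * Q ^ 3 * L

/-- WS (hypothesis: FC). PROOF. For `w = (g, h)`: `am h g = t γ` with `γ` primitive (`t` = the gcd of the entries), `dt γ ≠ 0`,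
`γ ∈ PB (2QL)`, `1 ≤ |t| ≤ 2QL`, so `f (am h g) ≤ f γ`. So the sum is at most
`∑_{γ ∈ PB (2QL)} #{w : ∃ t, am w.2 w.1 = t γ} f γ ≤ 1536 D² Q³ L ∑_{γ ∈ PB (2QL)} f γ / (nm γ)²`. Dyadic decomposition by
`j = Nat.log 2 (nm γ) ≤ Nat.log 2 (2QL)`: `2^j ≤ nm γ < 2^(j+1)`, and `∑_{nm γ < 2^(j+1)} f γ ≤ s * (min (2^(j+1)) (2QL))² ≤ 4 s 4^j`,
so each `j` contributes at most `4 s`. -/
def WS_stmt : Prop := ∀ (Q L D : ℕ) (f : V4 → ℝ) (s : ℝ), 1 ≤ L → L ≤ Q →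
  (∀ n, 1 ≤ n → n ≤ 4 * Q ^ 4 → n.divisors.card ≤ D) → (∀ h, 0 ≤ f h) →
  (∀ (h : V4) (t : ℤ), prim h → t ≠ 0 → |t| ≤ 2 * Q * L → f (t • h) ≤ f h) →
  (∀ G : ℕ, 1 ≤ G → G ≤ 2 * Q * L → ∑ h ∈ PB G, f h ≤ s * (G : ℝ) ^ 2) →
  ∑ w ∈ NB Q L ×ˢ NB Q L, f (am w.2 w.1) ≤
    6144 * (D : ℝ) ^ 2 * (Q : ℝ) ^ 3 * L * s * (1 + Nat.log 2 (2 * Q * L))

/-- CS (hypothesis: WS). One Cauchy-Schwarz: PROOF. `cnt S r G = ∑_{z ∈ S} n z`, `n z = #{(g, x) : g ∈ PB G, x ∈ S, r g x z}`.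
So `cnt² ≤ |S| ∑_z (n z)²`, and `∑_z (n z)²` is the number of `(g, x, h, y, z)` with `r g x z`, `r h y z`; for given
`(g, x)` there are at most `κ` elements `z`, and `r (am h g) x y`. So `cnt² ≤ |S| κ ∑_{g, h ∈ PB G} pc S (r (am h g))`
(`#{(g,x,h,y,z)} ≤ κ #{(g,h,x,y) : r (am h g) x y}`), and `PB G ⊆ NB G G`. Apply WS with `Q = L = G`, `f h = pc S (r h)` (as a real number) and `s |S|`
in place of `s`. -/
def CS_stmt : Prop := ∀ (X : Type) (S : Finset X) (r : V4 → X → X → Prop) (κ G D : ℕ) (s : ℝ), 1 ≤ G →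
  (∀ n, 1 ≤ n → n ≤ 4 * G ^ 4 → n.divisors.card ≤ D) →
  (∀ g ∈ PB G, ∀ x ∈ S, ∀ T : Finset X, T ⊆ S → (∀ y ∈ T, r g x y) → T.card ≤ κ) →
  (∀ g ∈ PB G, ∀ h ∈ PB G, ∀ x ∈ S, ∀ y ∈ S, ∀ z ∈ S, r g x z → r h y z → r (am h g) x y) →
  (∀ (h : V4) (t : ℤ), prim h → t ≠ 0 → |t| ≤ 2 * G * G → ∀ x ∈ S, ∀ y ∈ S, r (t • h) x y → r h x y) →
  (∀ G' : ℕ, 1 ≤ G' → G' ≤ 2 * G * G → (cnt S r G' : ℝ) ≤ s * (G' : ℝ) ^ 2 * S.card) →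
  (cnt S r G : ℝ) ^ 2 ≤
    6144 * κ * (D : ℝ) ^ 2 * (1 + Nat.log 2 (2 * G * G)) * s * (G : ℝ) ^ 4 * (S.card : ℝ) ^ 2

/-! ## Part 2: the integral relations -/

/-- QC (no hypotheses). PROOF. Let `w ∈ {(1,0), (0,1), (1,1)}` with `φ(w) ≠ 0` (if `φ 0 = φ 2 = 0` then `φ 1 ≠ 0`). Put `x = g w ∈ ℤ²`: at most
`(4G+1)²` values. Let `w'` be `(0,1)`, `(1,0)`, `(0,1)` resp., a basis with `w`, and `y = g w'`. Since
`ψ ∘ g = λ φ` (`λ ∈ ℚ`): `ψ(x) = λ φ(w)`; `λ ≠ 0` since `dt g ≠ 0` and `ds (ψ ∘ g) = (dt g)² ds ψ`. So `x` determines `λ`, and `ψ(x) ≠ 0`;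
`B_ψ(x, y) = λ B_φ(w, w')` (`B` the polar form) and `(dt g)² ds ψ = λ² ds φ`, so `dt g` has at most two values; `det(x, y) = ± dt g`.
For each of them, `y` is the solution of two linear equations `B_ψ(x, y) = .., det(x, y) = ..` with determinant `± 2 ψ(x) ≠ 0`. So at most
`2 (4G+1)² ≤ 50 G²` matrices. -/
def QC_stmt : Prop := ∀ (φ ψ : V3) (G : ℕ), 1 ≤ G → ds φ ≠ 0 → ds ψ ≠ 0 →
  ∀ F : Finset V4, (∀ g ∈ F, g ∈ PB G ∧ par (cp ψ g) φ) → F.card ≤ 50 * G ^ 2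

/-- INA (hypothesis: CS). One step for integral relations. PROOF. Put `r g x y = par (cp (φ y) g) (φ x)`. The hypotheses of CS hold: if `r g x y`, `r g x y'`, `dt g ≠ 0` then `par (φ y) (φ y')`
(`cp (cp φ g) h = cp φ (g h)`, compose with `adj g`; `φ x ≠ 0`, `cp φ g ≠ 0`), so all `y ∈ T` are parallel to one `y₀ ∈ T ⊆ S`: at most `κ`;
`r g x z`, `r h y z` give `cp (φ y) (am h g)` parallel to `cp (cp (φ z) h) (am h g) = (dt h)² cp (φ z) g`, parallel to `φ x`; `cp ψ (t h) = t² cp ψ h`. -/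
def INA_stmt : Prop := ∀ (X : Type) (S : Finset X) (φ : X → V3) (κ G D : ℕ) (s : ℝ), 1 ≤ G →
  (∀ n, 1 ≤ n → n ≤ 4 * G ^ 4 → n.divisors.card ≤ D) →
  (∀ x ∈ S, ds (φ x) ≠ 0) →
  (∀ x ∈ S, ∀ T : Finset X, T ⊆ S → (∀ y ∈ T, par (φ x) (φ y)) → T.card ≤ κ) →
  (∀ G' : ℕ, 1 ≤ G' → G' ≤ 2 * G * G →
    (cnt S (fun g x y => par (cp (φ y) g) (φ x)) G' : ℝ) ≤ s * (G' : ℝ) ^ 2 * S.card) →
  (cnt S (fun g x y => par (cp (φ y) g) (φ x)) G : ℝ) ^ 2 ≤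
    6144 * κ * (D : ℝ) ^ 2 * (1 + Nat.log 2 (2 * G * G)) * s * (G : ℝ) ^ 4 * (S.card : ℝ) ^ 2

/-- INT (hypotheses: INA, QC, and the divisor bound `Pool.Agent.helper9.Tors.divisor_bound` or
`Pool.Agent.helper47.RA.card_divisors_le`). PROOF. `r g x y = par (cp (φ y) g) (φ x)`,
`s*(T) = max(1, sup_{1 ≤ G' ≤ T} cnt(G') / (G'² |S|))`. INA: `s*(G)² ≤ A(G) s*(2G²)` with `A(G) = 6144 κ D² (1 + log)`, `D` = the divisor bound up to `4G⁴` (`A(G) ≥ 1` is increasing). Iterate `k` times, `T₀ = G`,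
`T_{i+1} = 2 T_i²`, `T_k ≤ (2G)^(2^k)`: `s*(G) ≤ A(T_k) s*(T_k)^(1/2^k)`, and by QC `s*(T) ≤ 50 |S|`
(`cnt(G') ≤ |S|² 50 G'²`). With `1/2^k ≤ ε/2` and the exponent of the divisor bound small enough in terms of `ε, k` this is `≤ C κ (G |S|)^ε`. (`S` empty: clear.) -/
def INT_stmt : Prop := ∀ ε : ℝ, 0 < ε → ∃ C : ℝ, 1 ≤ C ∧
  ∀ (X : Type) (S : Finset X) (φ : X → V3) (κ G : ℕ), 1 ≤ κ → 1 ≤ G →
  (∀ x ∈ S, ds (φ x) ≠ 0) →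
  (∀ x ∈ S, ∀ T : Finset X, T ⊆ S → (∀ y ∈ T, par (φ x) (φ y)) → T.card ≤ κ) →
  (cnt S (fun g x y => par (cp (φ y) g) (φ x)) G : ℝ) ≤
    C * κ * ((G : ℝ) * S.card) ^ ε * (G : ℝ) ^ 2 * S.card

/-! ## Part 3: geometry of numbers -/

/-- LAT (no hypotheses). PROOF. Suppose some `x, y ∈ F` have `pl x y ≠ 0`. Let `e₁ ∈ Λ` be nonzero of minimal norm `λ ≤ G`, `l` with
`|e₁ l| = λ`, and `e₂ ∈ Λ` with `pl e₁ e₂ ≠ 0` and `μ = max_{k,l} |pl e₁ e₂ k l|` minimal, `(i, j)` with `|pl e₁ e₂ i j| = μ`. One of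
`x, y` is not proportional to `e₁`, so `μ ≤ 2 λ G ≤ 2 G²`.
(a) Identity `m3 e₁ e₂ z k l i = pl e₁ e₂ k l * z i - pl z e₂ k l * e₁ i - pl e₁ z k l * e₂ i`. Call `z` in-plane if all `m3 e₁ e₂ z = 0`. For `z` in-plane
`pl e₁ e₂ k l * pl e₁ z i' j' = pl e₁ z k l * pl e₁ e₂ i' j'`, hence `|pl e₁ z k l| ≤ |pl e₁ z i j|` for all `k l`. If only `m3 e₁ e₂ z i j i' = 0` for all `i'` (this `(i, j)`), then `z` is in-plane (a rational combination of `e₁, e₂`).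
(b) In-plane elements: `z ↦ (⌊pl e₁ z i j / μ⌋, ⌊z l / λ⌋)` is injective on the in-plane elements of `Λ`: if the images of `z, z'` agree, `δ = z - z'` is in-plane, `|pl e₁ δ i j| < μ`, so by (a)
`max |pl e₁ δ| < μ`, so `pl e₁ δ = 0` by the choice of `e₂`, so `δ` is a rational multiple of `e₁` with `|δ l| < λ`, so `nm δ < λ`, `δ = 0`. The first coordinate takes at most `2⌊2λG/μ⌋ + 2 ≤ 8λG/μ` values on `F` (as `μ ≤ 2λG`), the second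
`2⌊G/λ⌋ + 2 ≤ 4G/λ`: together `≤ 32 G²/μ`.
(c) The other elements `F₁`: fix `x₀ ∈ F₁`; by (a) there is `i₀` with `m3 e₁ e₂ x₀ i j i₀ ≠ 0`. For `δ ∈ Λ` with `nm δ ≤ 2G` and `m3 e₁ e₂ δ i j i₀ = 0`: `|d4 e₁ e₂ δ x₀| ≤ 6 * μ * (2 * 2G * G) ≤ 48 G⁴ < p²` and `p² ∣ d4`, so `d4 = 0`, and the identity
`m3 e₁ e₂ δ k l i * m3 e₁ e₂ x₀ k l j - m3 e₁ e₂ δ k l j * m3 e₁ e₂ x₀ k l i = ± pl e₁ e₂ k l * d4 e₁ e₂ δ x₀` (`{k,l,i,j} = {0,1,2,3}`, sign of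
the permutation; checked numerically) gives `m3 e₁ e₂ δ i j i' = 0` for all `i'`, so `δ` is in-plane by (a). Hence the map `z ↦ (m3 e₁ e₂ z i j i₀ / p, ⌊pl e₁ z i j / μ⌋, ⌊z l / λ⌋)` is injective on `F₁` (apply this to the difference, then (b)), and its first
coordinate is nonzero on `F₁` (apply it to `z` itself), and `|m3 e₁ e₂ z i j i₀| ≤ 3 μ G`: at most `2 ⌊3μG/p⌋ ≤ 6μG/p` values. Total `≤ (6μG/p)(8λG/μ)(4G/λ) = 192 G³/p`. -/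
def LAT_stmt : Prop := ∀ (Λ : AddSubgroup V4) (p G : ℕ), 1 ≤ G → 7 * G ^ 2 < p →
  (∀ x ∈ Λ, ∀ y ∈ Λ, ∀ z ∈ Λ, ∀ i j k, (p : ℤ) ∣ m3 x y z i j k) →
  (∀ x ∈ Λ, ∀ y ∈ Λ, ∀ z ∈ Λ, ∀ w ∈ Λ, (p : ℤ) ^ 2 ∣ d4 x y z w) →
  ∀ F : Finset V4, (∀ x ∈ F, x ∈ Λ ∧ nm x ≤ G) →
    (∀ x ∈ F, ∀ y ∈ F, ∀ k l, pl x y k l = 0) ∨
    ∃ e₁ ∈ Λ, ∃ e₂ ∈ Λ, ∃ μ : ℕ, 1 ≤ μ ∧ (∀ k l, |pl e₁ e₂ k l| ≤ μ) ∧ (∃ k l, |pl e₁ e₂ k l| = μ) ∧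
      (F.filter fun x => ¬ ∀ i j k, m3 e₁ e₂ x i j k = 0).card * p ≤ 192 * G ^ 3 ∧
      (F.filter fun x => ∀ i j k, m3 e₁ e₂ x i j k = 0).card * μ ≤ 32 * G ^ 2

/-- FMD (no hypotheses). PROOF. From the two equations and `x.1 ≠ x.2`, in `ZMod p`: `g 0 = α g 2 + β g 3`, `g 1 = α' g 2 + β' g 3` with `α, β, α', β' ∈ ZMod p`
depending only on `x, y` (solve the linear system for `(g 0, g 1)`). So the 3x3 minors vanish mod `p` (any three vectors have two free coordinates). Take integer lifts of `α, ..., β'`: `g 0 - α g 2 - β g 3 = p u`,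
`g 1 - α' g 2 - β' g 3 = p v` over `ℤ`, so `d4 = p² * d4'` of the vectors `(u, v, g 2, g 3)` (`ring`). -/
def FMD_stmt : Prop := ∀ (p : ℕ) [Fact p.Prime] (x y : ZMod p × ZMod p), x.1 ≠ x.2 →
  (∀ a ∈ Lam p x y, ∀ b ∈ Lam p x y, ∀ c ∈ Lam p x y, ∀ i j k, (p : ℤ) ∣ m3 a b c i j k) ∧
  (∀ a ∈ Lam p x y, ∀ b ∈ Lam p x y, ∀ c ∈ Lam p x y, ∀ d ∈ Lam p x y, (p : ℤ) ^ 2 ∣ d4 a b c d)

/-- the form `det (e₂ v, e₁ v)` up to sign -/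
def f1 (e₁ e₂ : V4) : V3 := ![pl e₁ e₂ 0 2, pl e₁ e₂ 0 3 + pl e₁ e₂ 1 2, pl e₁ e₂ 1 3]

/-- the form `det (adj e₂ v, adj e₁ v)` up to sign -/
def f2 (e₁ e₂ : V4) : V3 := ![pl e₁ e₂ 2 3, pl e₁ e₂ 1 2 - pl e₁ e₂ 0 3, pl e₁ e₂ 0 1]

/-- FRM (no hypotheses). PROOF. First part: `e₁ (b,1) = n₁ (b',1)`, `e₂ (b, 1) = n₂ (b', 1)`; `linear_combination`. Second part:
for in-plane `g`, `pl e₁ e₂ k l * g i = pl g e₂ k l * e₁ i + pl e₁ g k l * e₂ i` (see LAT (a)); for `g = α e₁ + β e₂` one has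
`cp (f2 e₁ e₂) g = - dt g • f1 e₁ e₂` (`ring`); choose `k l` with `pl e₁ e₂ k l ≠ 0`, multiply `g` by it, and cancel. Third part: if `f1 = 0` then `cp (f2) g = 0` with `dt g ≠ 0`, so
`f2 = 0`; if `f2 = 0` then `dt g • f1 = 0` so `f1 = 0`; if both are `0` all minors are `0` (`2 pl 0 3 = 0` etc.). -/
def FRM_stmt : Prop := ∀ (p : ℕ) [Fact p.Prime] (x y : ZMod p × ZMod p) (e₁ e₂ : V4),
  e₁ ∈ Lam p x y → e₂ ∈ Lam p x y → (∃ k l, pl e₁ e₂ k l ≠ 0) →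
  (va p (f1 e₁ e₂) x.1 ∧ va p (f1 e₁ e₂) x.2 ∧ va p (f2 e₁ e₂) y.1 ∧ va p (f2 e₁ e₂) y.2) ∧
  ∀ g : V4, (∀ i j k, m3 e₁ e₂ g i j k = 0) → dt g ≠ 0 →
    f1 e₁ e₂ ≠ 0 ∧ f2 e₁ e₂ ≠ 0 ∧ par (cp (f2 e₁ e₂) g) (f1 e₁ e₂)

/-- PHI (no hypotheses). PROOF. (i) `Phi` is a chosen small form `φ` vanishing at `x.1, x.2`; two forms vanishing at the same two distinct points are proportional
mod `p` (`A b² + B b + C = 0 = A c² + B c + C` gives `B = -A (b + c)`, `C = A b c`), so `ψ i φ j - ψ j φ i ≡ 0` mod `p`, and it is `< p` in absolute value. (ii) `ds φ ≡ A² (b - c)²`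
mod `p` and `A ≢ 0` (if `A ≡ 0` all coefficients are `0` mod `p`, so `0`, being small). (iii) if `par (Phi x) (Phi y)`, then mod `p` both forms are nonzero and proportional,
so `{y.1, y.2}` is the set of the two roots of `Phi x` mod `p`: at most two `y` with `y.1 ≠ y.2`. -/
def PHI_stmt : Prop := ∀ (p : ℕ) [Fact p.Prime] (x : ZMod p × ZMod p), x.1 ≠ x.2 →
  (∀ ψ : V3, smf p ψ → va p ψ x.1 → va p ψ x.2 → Phi p x ≠ 0 ∧ par ψ (Phi p x)) ∧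
  (Phi p x ≠ 0 → ds (Phi p x) ≠ 0) ∧
  (Phi p x ≠ 0 → ∀ T : Finset (ZMod p × ZMod p),
    (∀ y ∈ T, y.1 ≠ y.2 ∧ Phi p y ≠ 0 ∧ par (Phi p x) (Phi p y)) → T.card ≤ 2)

/-- KEY (hypotheses: LAT, FMD, FRM, PHI). PROOF. LAT with `Λ = Lam p x y`. If all elements of `F` are proportional then `|F| ≤ 2` (primitive vectors: `± g`). Otherwise
`e₁, e₂, μ`. Out-of-plane elements: `≤ 192 G³/p ≤ 192 G²/√p`. In-plane elements: if `16 μ² < p`, then `f1, f2` have coefficients `≤ 2μ`, `4 (2μ)² < p`, they are nonzero by FRM if there is an in-plane `g ∈ F`, so small forms; by PHI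
`Phi x, Phi y ≠ 0` are proportional to them and `par (cp (Phi y) g) (Phi x)` (transitivity of `par` through nonzero forms) contradicts the last hypothesis, so there is no in-plane element. If `16 μ² ≥ p`:
`≤ 32 G²/μ ≤ 128 G²/√p`. -/
def KEY_stmt : Prop := ∀ (p : ℕ) [Fact p.Prime] (G : ℕ) (x y : ZMod p × ZMod p), 1 ≤ G → 7 * G ^ 2 < p →
  x.1 ≠ x.2 → y.1 ≠ y.2 → ∀ F : Finset V4,
  (∀ g ∈ F, g ∈ PB G ∧ rp p g x y ∧ ¬ (Phi p x ≠ 0 ∧ Phi p y ≠ 0 ∧ ri p g x y)) →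
  (F.card : ℝ) ≤ 2 + 320 * (G : ℝ) ^ 2 / Real.sqrt p

open Classical in
/-- SG (hypothesis: KEY). PROOF. Split the triples `(g, x, y)` into those with `Phi x, Phi y ≠ 0` and `ri p g x y`, counted by the last term, and the others (KEY for each of the
`≤ |B|⁴` pairs `(x, y)`). -/
def SG_stmt : Prop := ∀ (p : ℕ) [Fact p.Prime] (G : ℕ) (B : Finset (ZMod p)), 1 ≤ G → 7 * G ^ 2 < p →
  (cnt B.offDiag (rp p) G : ℝ) ≤ (B.card : ℝ) ^ 4 * (2 + 320 * (G : ℝ) ^ 2 / Real.sqrt p) +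
    cnt (B.offDiag.filter fun x => Phi p x ≠ 0) (ri p) G

/-- ENA (hypotheses: SG, INT, PHI). PROOF. `S = B.offDiag`, `M = |B|`, `|S| ≤ M²`. `7G² < p`, `28 G⁴ ≥ p` give `1/G² ≤ √28/√p`, so in SG `M⁴ (2 + 320 G²/√p) ≤ M⁴ G² (2√28 + 320)/√p ≤ 331 G² M² (M²/√p)`;
the last term of SG: INT with `φ = Phi p`, `κ = 2` (PHI (ii), (iii)), `(G |S₀|)^ε' ≤ (p * p²)^ε'`, `ε' = ε/3`. -/
def ENA_stmt : Prop := ∀ ε : ℝ, 0 < ε → ∃ C : ℝ, 1 ≤ C ∧ ∀ (p : ℕ) [Fact p.Prime] (G : ℕ) (B : Finset (ZMod p)), 1 ≤ G →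
  7 * G ^ 2 < p → p ≤ 28 * G ^ 4 → (cnt B.offDiag (rp p) G : ℝ) ≤
    C * (p : ℝ) ^ ε * (1 + (B.card : ℝ) ^ 2 / (p : ℝ) ^ (1 / 2 : ℝ)) * (G : ℝ) ^ 2 * (B.card : ℝ) ^ 2

/-- ENB (hypothesis: CS). One step mod `p`. PROOF. CS with `κ = 1`, `r = rp p`, `S = B.offDiag`: for `g ∈ PB G`, `p ∤ dt g` as `|dt g| ≤ 2G² < p`, so `x` determines `y` (if `g 2 b + g 3 = 0` then `g 0 b + g 1 = 0` and `dt g = 0` mod `p`);
`rp g x z, rp h y z` give `rp (am h g) x y`: `(am h g)(b, 1) = n (h 3 z - h 1, h 0 - h 2 z)`, `n = g 2 b + g 3`, and `h 3 z - h 1 = y (h 0 - h 2 z)` (no nonvanishing needed); `rp (t h)` implies `rp h` for `0 < |t| < p`. -/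
def ENB_stmt : Prop := ∀ (p : ℕ) [Fact p.Prime] (G D : ℕ) (B : Finset (ZMod p)) (s : ℝ), 1 ≤ G → 2 * G ^ 2 < p →
  (∀ n, 1 ≤ n → n ≤ 4 * G ^ 4 → n.divisors.card ≤ D) →
  (∀ G' : ℕ, 1 ≤ G' → G' ≤ 2 * G * G → (cnt B.offDiag (rp p) G' : ℝ) ≤ s * (G' : ℝ) ^ 2 * B.offDiag.card) →
  (cnt B.offDiag (rp p) G : ℝ) ^ 2 ≤
    6144 * (D : ℝ) ^ 2 * (1 + Nat.log 2 (2 * G * G)) * s * (G : ℝ) ^ 4 * (B.offDiag.card : ℝ) ^ 2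

/-- EN (hypotheses: ENA, ENB, divisor bound). The energy bound. PROOF. `S = B.offDiag`, `M = |B|`; if `M ≤ 1` then `cnt = 0`; else `M² ≤ 2|S| ≤ 2 M²`. `G₁` = the largest `G` with `7G² < p` (if there is one),
`σ = max_{1 ≤ G ≤ G₁} cnt(G) / (G² |S|)`. (1) For `G ≤ G₁` with `28 G⁴ ≥ p`: ENA gives `cnt(G)/(G²|S|) ≤ 2 C p^{ε'} (1 + M²/√p)`. (2) For `28 G⁴ < p` (i.e. `7 (2G²)² < p`, `2G² ≤ G₁`): ENB: `(cnt(G)/(G²|S|))² ≤ A σ`, `A = 6144 D² (1 + log) ≤ C p^{ε'}`. So `σ ≤ max (2 C p^{ε'} (1 + M²/√p)) (√(Aσ))`, so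
`σ ≤ C p^{2ε'} (1 + M²/√p)`: first claim; and (2) again gives the second claim (`√(1 + a²) ≤ 1 + a`). -/
def EN_stmt : Prop := ∀ ε : ℝ, 0 < ε → ∃ C : ℝ, 1 ≤ C ∧ ∀ (p : ℕ) [Fact p.Prime] (G : ℕ) (B : Finset (ZMod p)), 1 ≤ G →
  (7 * G ^ 2 < p → (cnt B.offDiag (rp p) G : ℝ) ≤
    C * (p : ℝ) ^ ε * (1 + (B.card : ℝ) ^ 2 / (p : ℝ) ^ (1 / 2 : ℝ)) * (G : ℝ) ^ 2 * (B.card : ℝ) ^ 2) ∧
  (28 * G ^ 4 < p → (cnt B.offDiag (rp p) G : ℝ) ≤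
    C * (p : ℝ) ^ ε * (1 + (B.card : ℝ) / (p : ℝ) ^ (1 / 4 : ℝ)) * (G : ℝ) ^ 2 * (B.card : ℝ) ^ 2)

/-! ## Part 4: from the energy to the character sums -/

/-- the value of `g` at `b` mod `p` (junk `0` if the denominator is `0`) -/
def zz (p : ℕ) [Fact p.Prime] (g : V4) (b : ZMod p) : ZMod p :=
  ((g 0 : ZMod p) * b + (g 1 : ZMod p)) / ((g 2 : ZMod p) * b + (g 3 : ZMod p))

/-- the index set: `g ∈ NB Q L`, `x = (b, c)` a pair of distinct elements of `B`, with nonzero denominators -/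
noncomputable def ix (p : ℕ) [Fact p.Prime] (Q L : ℕ) (B : Finset (ZMod p)) : Finset (V4 × (ZMod p × ZMod p)) :=
  (NB Q L ×ˢ B.offDiag).filter fun w => (w.1 2 : ZMod p) * w.2.1 + (w.1 3 : ZMod p) ≠ 0 ∧
    (w.1 2 : ZMod p) * w.2.2 + (w.1 3 : ZMod p) ≠ 0

/-- the number of collisions -/
noncomputable def col (p : ℕ) [Fact p.Prime] (Q L : ℕ) (B : Finset (ZMod p)) : ℕ :=
  ((ix p Q L B ×ˢ ix p Q L B).filter fun w =>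
    (zz p w.1.1 w.1.2.1, zz p w.1.1 w.1.2.2) = (zz p w.2.1 w.2.2.1, zz p w.2.1 w.2.2.2)).card

/-- COL (hypothesis: WS). PROOF. `zz g b = z` with nonzero denominator means `g 0 b + g 1 = z (g 2 b + g 3)`; `zz g x.1 = zz h y.1` gives `rl p (am h g) x.1 y.1`: with `n = g 2 b + g 3 ≠ 0`, `am h g (b, 1) = n (h 3 z - h 1, h 0 - h 2 z)` and
`h 3 z - h 1 = y (h 0 - h 2 z)`. So `col ≤ ∑_{g, h ∈ NB Q L} pc B.offDiag (rp p (am h g))`; WS with `f h = pc B.offDiag (rp p h)`; `rp (t h)` implies `rp h` for `0 < |t| < p`. -/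
def COL_stmt : Prop := ∀ (p : ℕ) [Fact p.Prime] (Q L D : ℕ) (B : Finset (ZMod p)) (s : ℝ), 1 ≤ L → L ≤ Q → 2 * Q * L < p →
  (∀ n, 1 ≤ n → n ≤ 4 * Q ^ 4 → n.divisors.card ≤ D) →
  (∀ G : ℕ, 1 ≤ G → G ≤ 2 * Q * L → (cnt B.offDiag (rp p) G : ℝ) ≤ s * (G : ℝ) ^ 2) →
  (col p Q L B : ℝ) ≤ 6144 * (D : ℝ) ^ 2 * (Q : ℝ) ^ 3 * L * s * (1 + Nat.log 2 (2 * Q * L))

/-- the double sum over the Farey box with absolute values -/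
noncomputable def S1 (p : ℕ) [Fact p.Prime] (χ : MulChar (ZMod p) ℂ) (B : Finset (ZMod p)) (β : ZMod p → ℂ) (Q : ℕ) : ℝ :=
  ∑ v ∈ Finset.Icc 1 Q ×ˢ Finset.Icc 1 Q, ‖∑ b ∈ B, β b * χ ((v.1 : ZMod p) + (v.2 : ZMod p) * b)‖

/-- the same with squares -/
noncomputable def S2 (p : ℕ) [Fact p.Prime] (χ : MulChar (ZMod p) ℂ) (B : Finset (ZMod p)) (β : ZMod p → ℂ) (Q : ℕ) : ℝ :=
  ∑ v ∈ Finset.Icc 1 Q ×ˢ Finset.Icc 1 Q, ‖∑ b ∈ B, β b * χ ((v.1 : ZMod p) + (v.2 : ZMod p) * b)‖ ^ 2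

/-- the short sums, `R (z, z') = |∑_{w ≤ W} χ(w + z) conj χ(w + z')|` -/
noncomputable def RR (p : ℕ) [Fact p.Prime] (χ : MulChar (ZMod p) ℂ) (W : ℕ) (z : ZMod p × ZMod p) : ℝ :=
  ‖∑ w ∈ Finset.Icc 1 W, χ ((w : ZMod p) + z.1) * (starRingEnd ℂ) (χ ((w : ZMod p) + z.2))‖

/-- the sum of the short sums over the index set -/
noncomputable def XX (p : ℕ) [Fact p.Prime] (χ : MulChar (ZMod p) ℂ) (B : Finset (ZMod p)) (Q L W : ℕ) : ℝ :=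
  ∑ i ∈ ix p Q L B, RR p χ W (zz p i.1 i.2.1, zz p i.1 i.2.2)

/-- BUA (no hypotheses; model: `pair_bound` in `Pool/Agent/helper46/PY/D.lean`). PROOF. For `u ∈ [1,L]²`, `w ∈ [1,W]`, `LW ≤ Q`:
`∑_{v ∈ [1,Q]²} F(v) ≤ ∑_{v ∈ [-Q,Q]²} F(v + w u)` for `F(v) = ‖∑_b β_b χ(v.1 + v.2 b)‖²  ≥ 0`. Sum over `u, w`, open the square:
`L² W S2 ≤ ∑_{u,v} ∑_{b,c ∈ B} ‖∑_w χ(v.1 + v.2 b + w (u.1 + u.2 b)) conj χ(v.1 + v.2 c + w(u.1 + u.2 c))‖`. Terms with `b = c`, or `u.1 + u.2 b = 0` or `u.1 + u.2 c = 0` in `ZMod p`, or `v.1 u.2 = v.2 u.1` are at most `W` each; their number is at most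
`(2Q+1)² (L² M + 2 L M²) + ((2Q+1)² L + L²) M² ≤ 9 Q² (L² M + 4 L M²)` (`1 ≤ u.1 ≤ L < p`: for given `u.2, b` at most one `u.1`; for given `v ≠ 0`, `u.1`: at most one `u.2`). For the others put `g = ![v.2, v.1, u.2, u.1] ∈ NB Q L`; the
term is `RR (zz g b, zz g c)` (`‖χ (u.1 + u.2 b)‖ = 1`); different `(u, v, b, c)` give different `(g, b, c)`, so their sum is at most `XX`. -/
def BUA_stmt : Prop := ∀ (p : ℕ) [Fact p.Prime] (χ : MulChar (ZMod p) ℂ), χ ≠ 1 → ∀ (B : Finset (ZMod p)) (β : ZMod p → ℂ), (∀ b, ‖β b‖ ≤ 1) →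
  ∀ Q L W : ℕ, 1 ≤ L → 1 ≤ W → L * W ≤ Q → Q < p →
    (L : ℝ) ^ 2 * W * S2 p χ B β Q ≤
      W * (9 * (Q : ℝ) ^ 2) * ((L : ℝ) ^ 2 * B.card + 4 * L * (B.card : ℝ) ^ 2) + XX p χ B Q L W

/-- BUB (no hypotheses; uses `Pool.Agent.helper82.Weil.moment_two` (file `Weil/M.lean`) and `holder_collision` (file `Weil/N.lean`)). PROOF. `holder_collision` with `I = ix`, `φ i = (zz i.1 i.2.1, zz i.1 i.2.2)`, `X = RR`; `moment_two` with `A` = the image of `[1, W]` in `ZMod p` (`W < p`: injective);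
`|ix| ≤ |NB Q L| |B|² ≤ (2Q+1)² (2L+1)² |B|² ≤ 81 Q² L² |B|²`. -/
def BUB_stmt : Prop := ∀ (p : ℕ) [Fact p.Prime] (χ : MulChar (ZMod p) ℂ), χ ≠ 1 → ∀ (B : Finset (ZMod p)),
  ∀ Q L W k : ℕ, 1 ≤ L → L ≤ Q → 1 ≤ W → 1 ≤ k → W < p →
    XX p χ B Q L W ^ (2 * k) ≤ (81 * (Q : ℝ) ^ 2 * (L : ℝ) ^ 2 * (B.card : ℝ) ^ 2) ^ (2 * k - 2) * (col p Q L B : ℝ) *
      ((k : ℝ) ^ (2 * k) * (W : ℝ) ^ k * (p : ℝ) ^ 2 + (W : ℝ) ^ (2 * k) * (2 * k * Real.sqrt p) ^ 2)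

/-- FNC (hypotheses: COL, BUA, BUB). The core inequality. PROOF. `S1² ≤ Q² S2` (Cauchy-Schwarz). BUA: `S2 ≤ 9 Q² (M + 4 M²/L) + XX/(L² W)`. With `T = 81 Q² L² M²`, `W^k ≥ p`: BUB: `(XX/(T W))^(2k) ≤ col (k^(2k) + 4k²) p / T²`
(`k^(2k) W^k p² ≤ k^(2k) W^(2k) p`), COL: `col ≤ 6144 D² Q³ L s (1 + log)`, `6144/6561 ≤ 1`, and `XX/(L² W) = 81 Q² M² (XX/(T W))`. -/
def FNC_stmt : Prop := ∀ (p : ℕ) [Fact p.Prime] (χ : MulChar (ZMod p) ℂ), χ ≠ 1 → ∀ (B : Finset (ZMod p)) (β : ZMod p → ℂ), (∀ b, ‖β b‖ ≤ 1) →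
  ∀ (Q L W k D : ℕ) (s : ℝ), 1 ≤ L → 1 ≤ W → 1 ≤ k → L * W ≤ Q → 2 * Q * L < p → p ≤ W ^ k → 1 ≤ B.card →
  (∀ n, 1 ≤ n → n ≤ 4 * Q ^ 4 → n.divisors.card ≤ D) →
  (∀ G : ℕ, 1 ≤ G → G ≤ 2 * Q * L → (cnt B.offDiag (rp p) G : ℝ) ≤ s * (G : ℝ) ^ 2) →
  S1 p χ B β Q ^ 2 ≤ 9 * (Q : ℝ) ^ 4 * (B.card + 4 * (B.card : ℝ) ^ 2 / L) +
    81 * (Q : ℝ) ^ 4 * (B.card : ℝ) ^ 2 *
      (((k : ℝ) ^ (2 * k) + 4 * (k : ℝ) ^ 2) * (D : ℝ) ^ 2 * (1 + Nat.log 2 (2 * Q * L)) * s * p /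
        (Q * (L : ℝ) ^ 3 * (B.card : ℝ) ^ 4)) ^ (1 / (2 * (k : ℝ)))

/-- FN1 (hypotheses: EN, FNC, divisor bound). Case I: `Q² ≥ p^(1/4+θ)` and `|B| ≤ 2 p^(1/4)`. PROOF. `η = θ/10`, `k ≥ 3/η`, `W = ⌊p^η⌋`, `L = ⌊Q p^(-2η)⌋`. `s = C p^{ε'} (1 + 4) M²` (EN, first bound, `7 (2QL)² ≤ 28 Q⁴ p^(-4η) < p`). `L³ Q ≥ Q⁴ p^(-6η)/8`. With `T = 81 Q² L² M²`:
`(X/(T W))^(2k) ≤ col C_k p/T² ≤ C p^(1 + 6η + 3ε')/(Q⁴ M²) ≤ C p^(6η + 3ε' - 2θ)`, as `Q² M ≥ p^(1/2+θ)`. And `S2 ≤ 9Q² (M + 4M²/L) + X/(L² W)`, `M, L ≥ p^η`, `S1² ≤ Q² S2`. -/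
def FN1_stmt : Prop := ∀ θ : ℝ, 0 < θ → ∃ p₀ : ℕ, ∃ δ : ℝ, 0 < δ ∧ ∀ (p : ℕ) [Fact p.Prime], p₀ < p →
  ∀ (χ : MulChar (ZMod p) ℂ), χ ≠ 1 → ∀ (B : Finset (ZMod p)) (β : ZMod p → ℂ), (∀ b, ‖β b‖ ≤ 1) →
  ∀ Q : ℕ, Q ^ 4 ≤ p → (p : ℝ) ^ (1 / 4 + θ) ≤ (Q : ℝ) ^ 2 → (B.card : ℝ) ≤ 2 * (p : ℝ) ^ (1 / 4 : ℝ) →
  (p : ℝ) ^ (1 / 2 + θ) ≤ (Q : ℝ) ^ 2 * B.card →
  S1 p χ B β Q ≤ (p : ℝ) ^ (-δ) * (Q : ℝ) ^ 2 * B.card

/-- FN2 (hypotheses: EN, FNC, divisor bound). Case II: `p^ε ≤ Q`, `Q² ≤ p^(1/4+ε/12)`, `Q⁴ |B| ≥ p^(3/4+ε)`. PROOF. WLOG `ε ≤ 1/8` (`Q^4 |B| ≤ p^(1/2+ε/6+1)`: for large `ε` nothing to prove or decrease `ε`). `θ = ε/12`, `η = ε/100`, `k ≥ 3/η`, `W = ⌊p^η⌋`, `L = min ⌊Q p^(-2η)⌋ ⌊p^(1/4)/(8Q)⌋`, so `28 (2QL)⁴ ≤ 28 p/256 < p` and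
`L ≥ Q p^(-θ)/16` (as `p^(1/4) ≥ Q² p^(-θ)`, `2η < θ`). `s = C p^{ε'} (1 + M/p^(1/4)) M²` (EN, second bound); `M ≥ p^(3/4+ε)/Q⁴ ≥ p^(1/4 + ε - 2θ) ≥ p^(1/4)`, so `s ≤ 2C p^{ε'} M³/p^(1/4)`. `(X/(TW))^(2k) ≤ C p^(1 + 3θ + 3ε') (M/p^(1/4))/(Q⁴ M²) = C p^(3/4 + 3θ + 3ε')/(Q⁴ M) ≤ C p^(-ε + ε/4 + 3ε')`.
The rest as in FN1. -/
def FN2_stmt : Prop := ∀ ε : ℝ, 0 < ε → ∃ p₀ : ℕ, ∃ δ : ℝ, 0 < δ ∧ ∀ (p : ℕ) [Fact p.Prime], p₀ < p →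
  ∀ (χ : MulChar (ZMod p) ℂ), χ ≠ 1 → ∀ (B : Finset (ZMod p)) (β : ZMod p → ℂ), (∀ b, ‖β b‖ ≤ 1) →
  ∀ Q : ℕ, (p : ℝ) ^ ε ≤ Q → (Q : ℝ) ^ 2 ≤ (p : ℝ) ^ (1 / 4 + ε / 12) →
  (p : ℝ) ^ (3 / 4 + ε) ≤ (Q : ℝ) ^ 4 * B.card →
  S1 p χ B β Q ≤ (p : ℝ) ^ (-δ) * (Q : ℝ) ^ 2 * B.card

/-- CUT (no hypotheses). PROOF. Strong induction on `|B|`: if `|B| ≤ 2m` clear; else split off a subset of exactly `m` elements; the triangle inequality. -/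
def CUT_stmt : Prop := ∀ (p : ℕ) [Fact p.Prime] (χ : MulChar (ZMod p) ℂ) (β : ZMod p → ℂ) (Q m : ℕ) (c : ℝ), 1 ≤ m →
  (∀ B : Finset (ZMod p), m ≤ B.card → B.card ≤ 2 * m → S1 p χ B β Q ≤ c * B.card) →
  ∀ B : Finset (ZMod p), m ≤ B.card → S1 p χ B β Q ≤ c * B.card

/-- FIN (hypotheses: FN1, FN2, CUT). PROOF. `θ = ε/12`. If `Q² ≤ p^(1/4+θ)`: FN2. Otherwise `Q² > p^(1/4+θ)`; let `m = min |B| ⌊p^(1/4)⌋` (`≥ 1`); for all `B'` with `m ≤ |B'| ≤ 2m`: `|B'| ≤ 2p^(1/4)` and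
`Q² |B'| ≥ Q² m ≥ min (p^(1/2+ε), p^(1/4+θ) p^(1/4)/2) ≥ p^(1/2+θ/2)`: FN1 with `θ/2`, and CUT. -/
def FIN_stmt : Prop := ∀ ε : ℝ, 0 < ε → ∃ p₀ : ℕ, ∃ δ : ℝ, 0 < δ ∧ ∀ (p : ℕ) [Fact p.Prime], p₀ < p →
  ∀ (χ : MulChar (ZMod p) ℂ), χ ≠ 1 → ∀ (B : Finset (ZMod p)) (β : ZMod p → ℂ), (∀ b, ‖β b‖ ≤ 1) →
  ∀ Q : ℕ, (p : ℝ) ^ ε ≤ Q → Q ^ 4 ≤ p → (p : ℝ) ^ (1 / 2 + ε) ≤ (Q : ℝ) ^ 2 * B.card →
  (p : ℝ) ^ (3 / 4 + ε) ≤ (Q : ℝ) ^ 4 * B.card →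
  S1 p χ B β Q ≤ (p : ℝ) ^ (-δ) * (Q : ℝ) ^ 2 * B.card

/-- RES (hypothesis: FIN). The main theorem, with Moebius images of the Farey set. PROOF. For `z = (a x + b y)/(c x + d y)`: `z + w = ((a + c w) x + (b + d w) y)/(c x + d y)`, `‖χ(c x + d y)‖ = 1`. There is at most one `w` with `a + c w = 0`; for the other `w`:
`χ(z + w) = χ(a + c w) χ(x + y w*) / χ(c x + d y)`, `w* = (b + d w)/(a + c w)`, and `w ↦ w*` is injective (`a d - b c ≠ 0`). So `‖∑_w β_w χ(z+w)‖ ≤ 1 + ‖∑_{w* ∈ B*} β'_{w*} χ(x + y w*)‖` with `B* = ` image of `B` minus one element, `|β'| ≤ 1`. Different `z`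
have different `(x, y)`, so the sum over `A` is `≤ Q² + S1 p χ B* β' Q`. `|B*| ≥ |B| - 1 ≥ |B|/2`, use FIN with `ε/2`; `Q² ≤ p^(-ε/2) Q² |B|`, as `|B| ≥ p^ε` (from `Q⁴ ≤ p`). -/
def RES_stmt : Prop := ∀ ε : ℝ, 0 < ε → ∃ p₀ : ℕ, ∃ δ : ℝ, 0 < δ ∧ ∀ (p : ℕ) [Fact p.Prime], p₀ < p →
  ∀ (χ : MulChar (ZMod p) ℂ), χ ≠ 1 → ∀ (A B : Finset (ZMod p)) (β : ZMod p → ℂ), (∀ w, ‖β w‖ ≤ 1) →
  ∀ Q : ℕ, (p : ℝ) ^ ε ≤ Q → Q ^ 4 ≤ p → (p : ℝ) ^ (1 / 2 + ε) ≤ (Q : ℝ) ^ 2 * B.card →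
  (p : ℝ) ^ (3 / 4 + ε) ≤ (Q : ℝ) ^ 4 * B.card →
  ∀ a b c d : ZMod p, a * d - b * c ≠ 0 →
  (∀ z ∈ A, ∃ x y : ℕ, 1 ≤ x ∧ x ≤ Q ∧ 1 ≤ y ∧ y ≤ Q ∧ c * x + d * y ≠ 0 ∧ z = (a * x + b * y) / (c * x + d * y)) →
  ∑ z ∈ A, ‖∑ w ∈ B, β w * χ (z + w)‖ ≤ (p : ℝ) ^ (-δ) * (Q : ℝ) ^ 2 * B.card

end Pool.Agent.helper68.FY
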