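import Mathlib
import Pool.Agent.helper67.FY.PLN
import Pool.Agent.helper8.FY.NPA
import Pool.Agent.helper68.FYX.NP
import Pool.Agent.helper65.FY.FC
import Pool.Agent.helper13.FY.WS
import Pool.Agent.helper35.FY.CS
import Pool.Agent.helper51.FY.QC
import Pool.Agent.helper52.FY.INA
import Pool.Agent.helper19.FY.INT
import Pool.Agent.helper3.FY.LAT
import Pool.Agent.helper25.FY.FMD
import Pool.Agent.helper68.FYX.FRM
import Pool.Agent.helper5.FY.PHI
import Pool.Agent.helper94.FY.KEY
import Pool.Agent.helper71.FY.SG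
import Pool.Agent.helper44.FY.ENA
import Pool.Agent.helper70.FY.ENB
import Pool.Agent.helper94.FY.EN
import Pool.Agent.helper84.FY.COL
import Pool.Agent.helper98.FY.BUA
import Pool.Agent.helper99.FY.BUB
import Pool.Agent.helper37.FY.FNC
import Pool.Agent.helper73.FY.FN1
import Pool.Agent.helper88.FY.FN2
import Pool.Agent.helper55.FY.CUT
import Pool.Agent.helper89.FY.FIN
import Pool.Agent.helper68.FYX.RES

/-! # Project fy: all parts together -/

set_option autoImplicit false

namespace Pool.Agent.helper68.FY

theorem ALL : RES_stmt := by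
  have ws : WS_stmt := WS (FC (NPX (NPA PLN)))
  have cs : CS_stmt := CS ws
  have int : INT_stmt := INT (INA cs) QC
  have sg : SG_stmt := SG (KEY LAT FMD FRMX PHI)
  have en : EN_stmt := EN (ENA sg int PHI) (ENB cs)
  have fnc : FNC_stmt := FNC (COL ws) BUA BUB
  exact RESX (FIN (FN1 en fnc) (FN2 en fnc) CUT)

end Pool.Agent.helper68.FY
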